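import Pool.Agent.W726.Symp4

/-!
# Countability of the set of path components of `Symp_ct(ℝ^{2n})`

Part (c) of Q1: for `G = Symp_ct(ℝ^{2n}, ω_st)` the set `π_0(G)` is countable.

The definitions come from `Pool.Agent.W726.Symp2` and `Pool.Agent.W726.Symp4`, for a real bilinear
form `Ω` on a normed space `V`:

* `SympSupp Ω K` is the group of diffeomorphisms `φ` of `V` with `φ^* Ω = Ω` which are the identity
  outside of `K`;
* `jet φ h k` is the `k`-th derivative of `φ`, as a continuous map, and `cInf Ω K` is the `C^∞`
  topology on `SympSupp Ω K`: it is induced by all the maps `φ ↦ D^k φ`, where continuous maps carry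
  the topology of uniform convergence on compact sets;
* `SympCt Ω` is the union of the groups `SympSupp Ω K` with `K` compact, and `dirLim Ω` is the
  direct limit topology, the finest topology for which all inclusions `SympSupp Ω K → SympCt Ω`
  with `K` compact are continuous.

Proof.  Let `φ, ψ` be supported in `K` and `‖D(ψ φ⁻¹) - 1‖ ≤ 1/2`.  Put `h = ψ φ⁻¹ - id`.  Then
`g_t = (id + (1+t)/2 h) ∘ (id + (1-t)/2 h)⁻¹`, `0 ≤ t ≤ 1`, are diffeomorphisms which preserve `Ω`
(because `Ω (Bu, v) + Ω (u, Bv) + Ω (Bu, Bv) = 0` for `B = Dh`), supported in `K`, and they depend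
smoothly on `t`; they join `id` to `ψ φ⁻¹`.  So path components of `SympSupp Ω K` are open, and
`SympSupp Ω K` is second countable.
-/

set_option autoImplicit false

namespace Pool.Agent.Results.MP_ec5dc5_gt.CountablePi0

open Pool.Agent.W726.Symp

/-- The space `ℝ^{2n}`, with coordinates `(x, y)`, where `x = (x_1, …, x_n)`,
`y = (y_1, …, y_n)`. -/
abbrev R2n (n : ℕ) : Type := (Fin n → ℝ) × (Fin n → ℝ)

/-- The standard symplectic form `∑ dx_i ∧ dy_i` on `ℝ^{2n}`. -/
noncomputable def omegaSt (n : ℕ) : R2n n →ₗ[ℝ] R2n n →ₗ[ℝ] ℝ :=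
  LinearMap.mk₂ ℝ (fun u v => ∑ i, (u.1 i * v.2 i - u.2 i * v.1 i))
    (by
      intro u u' v
      rw [← Finset.sum_add_distrib]
      apply Finset.sum_congr rfl
      intro i _
      simp only [Prod.fst_add, Prod.snd_add, Pi.add_apply]
      ring)
    (by
      intro c u v
      rw [smul_eq_mul, Finset.mul_sum]
      apply Finset.sum_congr rfl
      intro i _
      simp only [Prod.smul_fst, Prod.smul_snd, Pi.smul_apply, smul_eq_mul]
      ring)
    (by
      intro u v v'
      rw [← Finset.sum_add_distrib]
      apply Finset.sum_congr rfl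
      intro i _
      simp only [Prod.fst_add, Prod.snd_add, Pi.add_apply]
      ring)
    (by
      intro c u v
      rw [smul_eq_mul, Finset.mul_sum]
      apply Finset.sum_congr rfl
      intro i _
      simp only [Prod.smul_fst, Prod.smul_snd, Pi.smul_apply, smul_eq_mul]
      ring)

/-- For every `n` the group `Symp_ct(ℝ^{2n}, ω_st)`, with the direct limit of the `C^∞`
topologies, has at most countably many path components. -/
theorem result (n : ℕ) : Countable (ZerothHomotopy ↥(SympCt (omegaSt n))) :=
  countable_pi0 (omegaSt n)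

end Pool.Agent.Results.MP_ec5dc5_gt.CountablePi0
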